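import Pool.Agent.H74.AO.HStmts

set_option synthInstance.maxSize 100000

namespace AO

open SW MeasureTheory

open Classical in
theorem HTC_aux (h : HTVStmt) {Ω Λ : Type} [MeasurableSpace Ω] :
    ∀ (L : List (Set Ω × List ((Ω → Λ) × Bool))) (P : List ((Ω → Λ) × Bool)),
    (∀ a ∈ L, MeasurableSet a.1) →
    (∀ x, (x ∈ P ∨ ∃ a ∈ L, x ∈ a.2) → ∀ y, (y ∈ P ∨ ∃ a ∈ L, y ∈ a.2) →
      MeasurableSet {ω | x.1 ω = y.1 ω}) →
    MeasurableSet {ω | FreeGroup.mk (P.map (fun x => (x.1 ω, x.2))) *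
      (L.map (fun a => if ω ∈ a.1 then
        FreeGroup.mk (a.2.map (fun x => (x.1 ω, x.2))) else 1)).prod = 1} := by
  intro L
  induction L with
  | nil =>
    intro P _ h2
    have e : {ω : Ω | FreeGroup.mk (P.map (fun x => (x.1 ω, x.2))) *
        (([] : List (Set Ω × List ((Ω → Λ) × Bool))).map (fun a => if ω ∈ a.1 then
        FreeGroup.mk (a.2.map (fun x => (x.1 ω, x.2))) else 1)).prod = 1} =
        {ω : Ω | FreeGroup.mk (P.map (fun x => (x.1 ω, x.2))) = 1} := by
      ext ω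
      simp
    rw [e]
    exact h Ω Λ P (fun a ha b hb => h2 a (Or.inl ha) b (Or.inl hb))
  | cons a L ih =>
    intro P h1 h2
    have e : {ω : Ω | FreeGroup.mk (P.map (fun x => (x.1 ω, x.2))) *
        ((a :: L).map (fun a => if ω ∈ a.1 then
        FreeGroup.mk (a.2.map (fun x => (x.1 ω, x.2))) else 1)).prod = 1} =
        (a.1 ∩ {ω : Ω | FreeGroup.mk ((P ++ a.2).map (fun x => (x.1 ω, x.2))) *
          (L.map (fun a => if ω ∈ a.1 then
            FreeGroup.mk (a.2.map (fun x => (x.1 ω, x.2))) else 1)).prod = 1}) ∪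
        (a.1ᶜ ∩ {ω : Ω | FreeGroup.mk (P.map (fun x => (x.1 ω, x.2))) *
          (L.map (fun a => if ω ∈ a.1 then
            FreeGroup.mk (a.2.map (fun x => (x.1 ω, x.2))) else 1)).prod = 1}) := by
      ext ω
      simp only [Set.mem_ofPred_eq, Set.mem_union, Set.mem_inter_iff, Set.mem_compl_iff]
      by_cases hω : ω ∈ a.1
      · simp only [hω, List.map_cons, if_true, List.prod_cons, true_and, not_true_eq_false,
          false_and, or_false, List.map_append]
        rw [← FreeGroup.mul_mk, mul_assoc]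
      · simp only [hω, List.map_cons, if_false, List.prod_cons, false_and, not_false_eq_true,
          true_and, false_or, one_mul]
    rw [e]
    refine MeasurableSet.union (MeasurableSet.inter (h1 a List.mem_cons_self) (ih _ ?_ ?_))
      (MeasurableSet.inter (h1 a List.mem_cons_self).compl (ih _ ?_ ?_))
    · exact fun b hb => h1 b (List.mem_cons_of_mem _ hb)
    · have sub : ∀ x, (x ∈ P ++ a.2 ∨ ∃ b ∈ L, x ∈ b.2) → (x ∈ P ∨ ∃ b ∈ a :: L, x ∈ b.2) := by
        rintro x (hx | ⟨b, hb, hx⟩)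
        · rcases List.mem_append.1 hx with hx | hx
          · exact Or.inl hx
          · exact Or.inr ⟨a, List.mem_cons_self, hx⟩
        · exact Or.inr ⟨b, List.mem_cons_of_mem _ hb, hx⟩
      exact fun x hx y hy => h2 x (sub x hx) y (sub y hy)
    · exact fun b hb => h1 b (List.mem_cons_of_mem _ hb)
    · have sub : ∀ x, (x ∈ P ∨ ∃ b ∈ L, x ∈ b.2) → (x ∈ P ∨ ∃ b ∈ a :: L, x ∈ b.2) := by
        rintro x (hx | ⟨b, hb, hx⟩)
        · exact Or.inl hx
        · exact Or.inr ⟨b, List.mem_cons_of_mem _ hb, hx⟩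
      exact fun x hx y hy => h2 x (sub x hx) y (sub y hy)

theorem ao_htc (h : HTVStmt) : HTCStmt := by
  intro Ω Λ _ L h1 h2
  classical
  have := HTC_aux h L [] h1 (by
    rintro x (hx | ⟨a, ha, hx⟩) y (hy | ⟨b, hb, hy⟩)
    · simp at hx
    · simp at hx
    · simp at hy
    · exact h2 a ha b hb x hx y hy)
  convert this using 3
  rename_i ω
  simp [← FreeGroup.one_eq_mk]

end AO
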