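import Pool.Agent.H74.AO.HStmts

set_option synthInstance.maxSize 100000

namespace AO

open SW MeasureTheory

/-- the decomposition of the event that a word is trivial -/
theorem HTV_eq {Ω Λ : Type} (L : List ((Ω → Λ) × Bool)) (hL : L ≠ []) :
    {ω | FreeGroup.mk (L.map (fun a => (a.1 ω, a.2))) = 1} =
      ⋃ i : Fin L.length, ⋃ (h : i.1 + 1 < L.length), ⋃ (_ : (L[i.1]).2 = !(L[i.1 + 1]).2),
        {ω | (L[i.1]).1 ω = (L[i.1 + 1]).1 ω} ∩
        {ω | FreeGroup.mk ((L.take i.1 ++ L.drop (i.1 + 2)).map (fun a => (a.1 ω, a.2))) = 1} := by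
  have key : ∀ (i : ℕ) (h : i + 1 < L.length), L = L.take i ++ L[i] :: L[i + 1] :: L.drop (i + 2) := by
    intro i h
    have h1 : L.drop i = L[i] :: L[i + 1] :: L.drop (i + 2) := by
      rw [List.drop_eq_getElem_cons (by omega), List.drop_eq_getElem_cons h]
    rw [← h1, List.take_append_drop]
  ext ω
  simp only [Set.mem_ofPred_eq, Set.mem_iUnion, Set.mem_inter_iff]
  constructor
  · intro h
    have h1 : FreeGroup.Red (L.map (fun a => (a.1 ω, a.2))) [] := by
      have h2 := FreeGroup.Red.exact.1 (h.trans FreeGroup.one_eq_mk)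
      obtain ⟨c, hc1, hc2⟩ := h2
      rw [FreeGroup.Red.nil_iff.1 hc2] at hc1
      exact hc1
    rcases Relation.ReflTransGen.cases_head h1 with h2 | ⟨c, h2, h3⟩
    · exact absurd (List.map_eq_nil_iff.1 h2) hL
    · generalize hM : L.map (fun a => (a.1 ω, a.2)) = M at h2
      obtain ⟨L1, L2, x, b⟩ := h2
      rename_i L1 L2 x b
      have hlen : L.length = L1.length + (L2.length + 2) := by
        have := congrArg List.length hM
        simpa [Nat.add_assoc] using this
      have hi : L1.length + 1 < L.length := by omega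
      have g1 : ((L[L1.length]).1 ω, (L[L1.length]).2) = (x, b) := by
        have : (L.map (fun a => (a.1 ω, a.2)))[L1.length]? = (L1 ++ (x, b) :: (x, !b) :: L2)[L1.length]? := by
          rw [hM]
        rw [List.getElem?_map, List.getElem?_eq_getElem (by omega)] at this
        simpa using this
      have g2 : ((L[L1.length + 1]).1 ω, (L[L1.length + 1]).2) = (x, !b) := by
        have : (L.map (fun a => (a.1 ω, a.2)))[L1.length + 1]? = (L1 ++ (x, b) :: (x, !b) :: L2)[L1.length + 1]? := by
          rw [hM]
        rw [List.getElem?_map, List.getElem?_eq_getElem hi] at this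
        simpa [List.getElem?_append] using this
      refine ⟨⟨L1.length, by omega⟩, hi, ?_, ?_, ?_⟩
      · have e1 := congrArg Prod.snd g1
        have e2 := congrArg Prod.snd g2
        simp only at e1 e2
        show (L[L1.length]).2 = !(L[L1.length + 1]).2
        rw [e1, e2, Bool.not_not]
      · have e1 := congrArg Prod.fst g1
        have e2 := congrArg Prod.fst g2
        simp only at e1 e2
        show (L[L1.length]).1 ω = (L[L1.length + 1]).1 ω
        rw [e1, e2]
      · have e3 : (L.take L1.length ++ L.drop (L1.length + 2)).map (fun a => (a.1 ω, a.2)) = L1 ++ L2 := by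
          rw [List.map_append, List.map_take, List.map_drop, hM]
          congr 1
          · simp
          · rw [List.drop_append]
            simp
        show FreeGroup.mk ((L.take L1.length ++ L.drop (L1.length + 2)).map (fun a => (a.1 ω, a.2))) = 1
        rw [e3]
        have := FreeGroup.Red.exact.2 ⟨[], h3, Relation.ReflTransGen.refl⟩
        exact this.trans FreeGroup.one_eq_mk.symm
  · rintro ⟨i, h, hs, he, ht⟩
    have e1 := key i.1 h
    have e2 : L.map (fun a => (a.1 ω, a.2)) = (L.take i.1).map (fun a => (a.1 ω, a.2)) ++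
        ((L[i.1]).1 ω, (L[i.1]).2) :: ((L[i.1]).1 ω, !(L[i.1]).2) ::
          (L.drop (i.1 + 2)).map (fun a => (a.1 ω, a.2)) := by
      conv_lhs => rw [e1]
      rw [List.map_append, List.map_cons, List.map_cons, ← he, hs, Bool.not_not]
    rw [e2]
    have st : FreeGroup.Red.Step ((L.take i.1).map (fun a => (a.1 ω, a.2)) ++
        ((L[i.1]).1 ω, (L[i.1]).2) :: ((L[i.1]).1 ω, !(L[i.1]).2) ::
          (L.drop (i.1 + 2)).map (fun a => (a.1 ω, a.2)))
        ((L.take i.1).map (fun a => (a.1 ω, a.2)) ++ (L.drop (i.1 + 2)).map (fun a => (a.1 ω, a.2))) :=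
      FreeGroup.Red.Step.not
    have := Quot.sound st
    rw [← List.map_append] at this
    exact this.trans ht

theorem HTV_aux {Ω Λ : Type} [MeasurableSpace Ω] : ∀ (n : ℕ) (L : List ((Ω → Λ) × Bool)),
    L.length ≤ n → (∀ a ∈ L, ∀ b ∈ L, MeasurableSet {ω | a.1 ω = b.1 ω}) →
    MeasurableSet {ω | FreeGroup.mk (L.map (fun a => (a.1 ω, a.2))) = 1} := by
  intro n
  induction n with
  | zero =>
    intro L hn h
    have : L = [] := List.length_eq_zero_iff.1 (by omega)
    subst this
    have : {ω : Ω | FreeGroup.mk (List.map (fun a : (Ω → Λ) × Bool => (a.1 ω, a.2)) []) = 1} = Set.univ := by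
      ext ω
      simp [← FreeGroup.one_eq_mk]
    rw [this]
    exact MeasurableSet.univ
  | succ n ih =>
    intro L hn h
    by_cases hL : L = []
    · subst hL
      exact ih [] (by simp) h
    · rw [HTV_eq L hL]
      refine MeasurableSet.iUnion fun i => MeasurableSet.iUnion fun hi => MeasurableSet.iUnion fun _ => ?_
      refine MeasurableSet.inter (h _ (List.getElem_mem _) _ (List.getElem_mem _)) ?_
      apply ih
      · simp only [List.length_append, List.length_take, List.length_drop]
        omega
      · intro a ha b hb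
        have sub : ∀ c ∈ L.take i.1 ++ L.drop (i.1 + 2), c ∈ L := by
          intro c hc
          rcases List.mem_append.1 hc with hc | hc
          · exact List.mem_of_mem_take hc
          · exact List.mem_of_mem_drop hc
        exact h a (sub a ha) b (sub b hb)

theorem ao_htv : HTVStmt := by
  intro Ω Λ _ L h
  exact HTV_aux L.length L le_rfl h

end AO
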