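import Pool.Agent.H74.AO.HStmts

set_option synthInstance.maxSize 100000

namespace AO

open SW MeasureTheory

/-- good letters -/
def HWP_ok (f : (ℕ → Vx) → Ltr) : Prop :=
  (∃ (u : (ℕ → Vx) → Bool) (y : (ℕ → Vx) → Rl) (s : (ℕ → Vx) → Str), Measurable u ∧ Measurable y ∧
    (∀ t, MeasurableSet {V | s V = t}) ∧ f = fun V => Sum.inl ((u V, y V), s V)) ∨
  ∃ y w : (ℕ → Vx) → Rl, Measurable y ∧ Measurable w ∧ f = fun V => Sum.inr (y V, w V)

theorem HWP_rl {y w : (ℕ → Vx) → Rl} (hy : Measurable y) (hw : Measurable w) :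
    MeasurableSet {V | y V = w V} := measurableSet_eq_fun hy hw

theorem HWP_eq {f g : (ℕ → Vx) → Ltr} (hf : HWP_ok f) (hg : HWP_ok g) :
    MeasurableSet {V | f V = g V} := by
  rcases hf with ⟨u, y, s, h1, h2, h3, rfl⟩ | ⟨y, w, h1, h2, rfl⟩ <;>
  rcases hg with ⟨u', y', s', h1', h2', h3', rfl⟩ | ⟨y', w', h1', h2', rfl⟩
  · have e : {V | (Sum.inl ((u V, y V), s V) : Ltr) = Sum.inl ((u' V, y' V), s' V)} =
        {V | u V = u' V} ∩ {V | y V = y' V} ∩ ⋃ t : Str, ({V | s V = t} ∩ {V | s' V = t}) := by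
      ext V
      simp only [Set.mem_ofPred_eq, Sum.inl.injEq, Prod.mk.injEq, Set.mem_inter_iff, Set.mem_iUnion]
      constructor
      · rintro ⟨⟨h, h'⟩, h''⟩
        exact ⟨⟨h, h'⟩, s V, rfl, h''.symm⟩
      · rintro ⟨⟨h, h'⟩, t, e1, e2⟩
        exact ⟨⟨h, h'⟩, e1.trans e2.symm⟩
    rw [e]
    exact ((measurableSet_eq_fun h1 h1').inter (HWP_rl h2 h2')).inter
      (MeasurableSet.iUnion fun t => (h3 t).inter (h3' t))
  · have e : {V | (Sum.inl ((u V, y V), s V) : Ltr) = Sum.inr (y' V, w' V)} = ∅ := by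
      ext V; simp
    rw [e]; exact MeasurableSet.empty
  · have e : {V | (Sum.inr (y V, w V) : Ltr) = Sum.inl ((u' V, y' V), s' V)} = ∅ := by
      ext V; simp
    rw [e]; exact MeasurableSet.empty
  · have e : {V | (Sum.inr (y V, w V) : Ltr) = Sum.inr (y' V, w' V)} =
        {V | y V = y' V} ∩ {V | w V = w' V} := by
      ext V
      simp only [Set.mem_ofPred_eq, Sum.inr.injEq, Prod.mk.injEq, Set.mem_inter_iff]
    rw [e]
    exact (HWP_rl h1 h1').inter (HWP_rl h2 h2')

/-- the letters of `tau` -/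
def HWP_tw (i j m : ℕ) : ℕ → List (((ℕ → Vx) → Ltr) × Bool)
  | 0 => [(fun V => Sum.inr ((V i).2, (V j).2), true)]
  | k + 1 => HWP_tw i j m k ++ HWP_tw i j m k ++
      [(fun V => Sum.inl ((false, (V i).2), str (V j).2 (m - k)), true)] ++
      [(fun V => Sum.inl ((true, (V j).2), str (V i).2 (m - k)), true)]

theorem HWP_tau (i j m : ℕ) (V : ℕ → Vx) : ∀ k,
    FreeGroup.mk ((HWP_tw i j m k).map (fun x => (x.1 V, x.2))) = tau (V i).2 (V j).2 m k := by
  intro k
  induction k with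
  | zero => rfl
  | succ k ih =>
    rw [HWP_tw, tau, List.map_append, List.map_append, List.map_append, ← FreeGroup.mul_mk,
      ← FreeGroup.mul_mk, ← FreeGroup.mul_mk, ih, pow_two]
    rfl

theorem HWP_y (i : ℕ) : Measurable (fun V : ℕ → Vx => (V i).2) :=
  measurable_snd.comp (measurable_pi_apply i)

theorem HWP_str (i k : ℕ) (t : Str) : MeasurableSet {V : ℕ → Vx | str (V i).2 k = t} := by
  have h1 : Measurable (fun V : ℕ → Vx => (fun l : Fin k => (V i).2 l.1)) := by
    refine measurable_pi_lambda _ fun l => ?_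
    exact (measurable_pi_apply l.1).comp (HWP_y i)
  have h2 : MeasurableSet {z : Fin k → Bool | (List.range k).map
      (fun l => if h : l < k then z ⟨l, h⟩ else false) = t} := Set.Finite.measurableSet (Set.toFinite _)
  have h3 := h1 h2
  convert h3 using 1
  ext V
  simp only [Set.mem_preimage, Set.mem_ofPred_eq, str]
  have : (List.range k).map (V i).2 = (List.range k).map (fun l => if h : l < k then (V i).2 l else false) := by
    apply List.map_congr_left
    intro l hl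
    rw [List.mem_range] at hl
    simp [hl]
  rw [this]

theorem HWP_tw_ok (i j m : ℕ) : ∀ k, ∀ x ∈ HWP_tw i j m k, HWP_ok x.1 := by
  intro k
  induction k with
  | zero =>
    intro x hx
    rw [HWP_tw, List.mem_singleton] at hx
    subst hx
    exact Or.inr ⟨_, _, HWP_y i, HWP_y j, rfl⟩
  | succ k ih =>
    intro x hx
    rw [HWP_tw, List.mem_append, List.mem_append, List.mem_append, List.mem_singleton,
      List.mem_singleton] at hx
    rcases hx with ((hx | hx) | hx) | hx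
    · exact ih x hx
    · exact ih x hx
    · subst hx
      exact Or.inl ⟨_, _, _, measurable_const, HWP_y i, HWP_str j (m - k), rfl⟩
    · subst hx
      exact Or.inl ⟨_, _, _, measurable_const, HWP_y j, HWP_str i (m - k), rfl⟩

/-- the item of a letter -/
def HWP_it (Z : Rl → Rl → Prop) (m : ℕ) : PLet × Bool →
    Set (ℕ → Vx) × List (((ℕ → Vx) → Ltr) × Bool)
  | (Sum.inl (i, s), b) => (Set.univ, [(fun V => Sum.inl (V i, s), b)])
  | (Sum.inr (i, j, n), true) => ({V | Z (V i).2 (V j).2}, HWP_tw i j m (m - n))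
  | (Sum.inr (i, j, n), false) => ({V | Z (V i).2 (V j).2},
      ((HWP_tw i j m (m - n)).map (fun x => (x.1, !x.2))).reverse)

theorem HWP_it_pos (Z : Rl → Rl → Prop) (m : ℕ) (V : ℕ → Vx) (a : PLet × Bool)
    (h : V ∈ (HWP_it Z m a).1) :
    FreeGroup.mk ((HWP_it Z m a).2.map (fun x => (x.1 V, x.2))) =
    cond a.2 (lev Z m (pl V a.1)) (lev Z m (pl V a.1))⁻¹ := by
  rcases a with ⟨⟨i, s⟩ | ⟨i, j, n⟩, b⟩
  · cases b <;> rfl
  · cases b
    · have h' : Z (V i).2 (V j).2 := h
      simp only [HWP_it, pl, lev, cond_false]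
      rw [if_pos h', ← HWP_tau i j m V, FreeGroup.inv_mk, FreeGroup.invRev]
      rw [List.map_reverse, List.map_map, List.map_map]
      rfl
    · have h' : Z (V i).2 (V j).2 := h
      simp only [HWP_it, pl, lev, cond_true]
      rw [if_pos h', HWP_tau]

theorem HWP_it_neg (Z : Rl → Rl → Prop) (m : ℕ) (V : ℕ → Vx) (a : PLet × Bool)
    (h : V ∉ (HWP_it Z m a).1) :
    1 = cond a.2 (lev Z m (pl V a.1)) (lev Z m (pl V a.1))⁻¹ := by
  rcases a with ⟨⟨i, s⟩ | ⟨i, j, n⟩, b⟩
  · exact absurd (Set.mem_univ _) h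
  · cases b
    · have h' : ¬ Z (V i).2 (V j).2 := h
      simp only [pl, lev, cond_false]
      rw [if_neg h', inv_one]
    · have h' : ¬ Z (V i).2 (V j).2 := h
      simp only [pl, lev, cond_true]
      rw [if_neg h']

theorem HWP_it_ok (Z : Rl → Rl → Prop) (m : ℕ) (a : PLet × Bool) :
    ∀ x ∈ (HWP_it Z m a).2, HWP_ok x.1 := by
  rcases a with ⟨⟨i, s⟩ | ⟨i, j, n⟩, b⟩
  · intro x hx
    simp only [HWP_it, List.mem_singleton] at hx
    subst hx
    refine Or.inl ⟨fun V => (V i).1, fun V => (V i).2, fun _ => s, ?_, HWP_y i, fun t => ?_, rfl⟩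
    · exact measurable_fst.comp (measurable_pi_apply i)
    · exact MeasurableSet.const _
  · cases b
    · intro x hx
      simp only [HWP_it, List.mem_reverse, List.mem_map] at hx
      obtain ⟨y, hy, rfl⟩ := hx
      exact HWP_tw_ok i j m _ y hy
    · exact fun x hx => HWP_tw_ok i j m _ x hx

theorem HWP_it_ms (Z : Rl → Rl → Prop) (hZ : MZ Z) (m : ℕ) (a : PLet × Bool) :
    MeasurableSet (HWP_it Z m a).1 := by
  rcases a with ⟨⟨i, s⟩ | ⟨i, j, n⟩, b⟩
  · exact MeasurableSet.univ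
  · have h : MeasurableSet {V : ℕ → Vx | Z (V i).2 (V j).2} :=
      ((HWP_y i).prodMk (HWP_y j)) hZ
    cases b <;> exact h

theorem ao_hwp (h : HTCStmt) : HWPStmt := by
  intro Z hZ p
  have e : {V : ℕ → Vx | wp V p ∈ Tv Z} = ⋃ m0 : ℕ, ⋂ m : ℕ, ⋂ (_ : m0 ≤ m),
      {V : ℕ → Vx | FreeGroup.lift (lev Z m) (wp V p) = 1} := by
    ext V
    simp only [Set.mem_iUnion, Set.mem_iInter, Set.mem_ofPred_eq]
    exact Iff.rfl
  rw [e]
  refine MeasurableSet.iUnion fun m0 => MeasurableSet.iInter fun m => MeasurableSet.iInter fun _ => ?_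
  have h1 := h (ℕ → Vx) Ltr (p.map (HWP_it Z m))
    (by
      intro a ha
      obtain ⟨b, _, rfl⟩ := List.mem_map.1 ha
      exact HWP_it_ms Z hZ m b)
    (by
      intro a ha b hb x hx y hy
      obtain ⟨a', _, rfl⟩ := List.mem_map.1 ha
      obtain ⟨b', _, rfl⟩ := List.mem_map.1 hb
      exact HWP_eq (HWP_it_ok Z m a' x hx) (HWP_it_ok Z m b' y hy))
  convert h1 using 3
  rename_i V
  rw [wp, FreeGroup.lift_mk, List.map_map, List.map_map]
  refine Eq.congr_left (congrArg List.prod (List.map_congr_left fun a _ => ?_))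
  simp only [Function.comp_apply]
  by_cases hV : V ∈ (HWP_it Z m a).1
  · rw [if_pos hV]
    exact (HWP_it_pos Z m V a hV).symm
  · rw [if_neg hV]
    exact (HWP_it_neg Z m V a hV).symm

end AO
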